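import Pool.Agent.Helper35.PQF.St

/-! Project PQF, module HS2: translation length. -/

open Filter Topology Matrix Set MeasureTheory
open scoped ENNReal ComplexOrder

namespace Pool.Agent.Helper80.PM

open Pool.Agent.Helper35.PM

theorem root_ne_zero {τ μ : ℂ} (h : μ ^ 2 - τ * μ + 1 = 0) : μ ≠ 0 := by
  rintro rfl
  simp at h

theorem roots_eq {τ μ : ℂ} (h : μ ^ 2 - τ * μ + 1 = 0) :
    {ν : ℂ | ν ^ 2 - τ * ν + 1 = 0} = {μ, μ⁻¹} := by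
  have h0 := root_ne_zero h
  have hτ : τ = μ + μ⁻¹ := by
    have h1 : τ * μ = μ ^ 2 + 1 := by linear_combination -h
    field_simp
    linear_combination h1
  ext ν
  simp only [Set.mem_ofPred_eq, Set.mem_insert_iff, Set.mem_singleton_iff]
  have h2 : ν ^ 2 - τ * ν + 1 = (ν - μ) * (ν - μ⁻¹) := by
    rw [hτ]
    field_simp
    ring
  rw [h2, mul_eq_zero, sub_eq_zero, sub_eq_zero]

theorem tl_eq (A : SL) {μ : ℂ} (h : μ ^ 2 - (A : Mat).trace * μ + 1 = 0) :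
    tl A = 2 * |Real.log ‖μ‖| := by
  unfold tl
  rw [roots_eq h, Set.image_pair, csSup_pair, norm_inv, Real.log_inv, abs_eq_max_neg]

theorem exists_root (τ : ℂ) : ∃ μ : ℂ, μ ^ 2 - τ * μ + 1 = 0 := by
  obtain ⟨δ, hδ⟩ := IsAlgClosed.exists_pow_nat_eq (τ ^ 2 - 4) (n := 2) (by norm_num)
  refine ⟨(τ + δ) / 2, ?_⟩
  linear_combination (1 / 4 : ℂ) * hδ

theorem inv_root {τ μ : ℂ} (h : μ ^ 2 - τ * μ + 1 = 0) : (μ⁻¹) ^ 2 - τ * μ⁻¹ + 1 = 0 := by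
  have h1 : μ⁻¹ ∈ {ν : ℂ | ν ^ 2 - τ * ν + 1 = 0} := by
    rw [roots_eq h]
    simp
  exact h1

theorem eigen (A : SL) {μ : ℂ} (h : μ ^ 2 - (A : Mat).trace * μ + 1 = 0) :
    ∃ v : Fin 2 → ℂ, v ≠ 0 ∧ (A : Mat).mulVec v = μ • v := by
  have hdet : (A : Mat) 0 0 * (A : Mat) 1 1 - (A : Mat) 0 1 * (A : Mat) 1 0 = 1 := by
    have h1 := A.det_coe
    rwa [Matrix.det_fin_two] at h1
  have h2 : ((A : Mat) - μ • (1 : Mat)).det = 0 := by
    rw [Matrix.det_fin_two]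
    rw [Matrix.trace_fin_two] at h
    simp
    linear_combination hdet + h
  obtain ⟨v, hv, hv2⟩ := Matrix.exists_mulVec_eq_zero_iff.2 h2
  refine ⟨v, hv, ?_⟩
  rw [Matrix.sub_mulVec, Matrix.smul_mulVec, Matrix.one_mulVec, sub_eq_zero] at hv2
  exact hv2

theorem cs2 (x y z w : ℂ) : ‖x * y + z * w‖ ^ 2 ≤ (‖x‖ ^ 2 + ‖z‖ ^ 2) * (‖y‖ ^ 2 + ‖w‖ ^ 2) := by
  have h1 : ‖x * y + z * w‖ ≤ ‖x‖ * ‖y‖ + ‖z‖ * ‖w‖ := by
    refine (norm_add_le _ _).trans ?_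
    rw [norm_mul, norm_mul]
  have h2 : ‖x * y + z * w‖ ^ 2 ≤ (‖x‖ * ‖y‖ + ‖z‖ * ‖w‖) ^ 2 :=
    pow_le_pow_left₀ (norm_nonneg _) h1 2
  nlinarith [sq_nonneg (‖x‖ * ‖w‖ - ‖z‖ * ‖y‖)]

theorem hs2 : St_HS2 := by
  have h2 : ∀ A : SL, ∀ μ : ℂ, μ ^ 2 - (A : Mat).trace * μ + 1 = 0 → tl A = 2 * |Real.log ‖μ‖| :=
    fun A μ h => tl_eq A h
  have h1 : ∀ A : SL, ∃ μ : ℂ, μ ^ 2 - (A : Mat).trace * μ + 1 = 0 ∧ 1 ≤ ‖μ‖ ∧
      tl A = 2 * Real.log ‖μ‖ := by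
    intro A
    obtain ⟨μ, hμ⟩ := exists_root (A : Mat).trace
    rcases le_total 1 ‖μ‖ with h | h
    · refine ⟨μ, hμ, h, ?_⟩
      rw [tl_eq A hμ, abs_of_nonneg (Real.log_nonneg h)]
    · have h3 : 1 ≤ ‖μ⁻¹‖ := by
        rw [norm_inv]
        exact (one_le_inv₀ (norm_pos_iff.2 (root_ne_zero hμ))).2 h
      refine ⟨μ⁻¹, inv_root hμ, h3, ?_⟩
      rw [tl_eq A (inv_root hμ), abs_of_nonneg (Real.log_nonneg h3)]
  have h5 : ∀ A B : SL, ((B : Mat).trace = (A : Mat).trace ∨ (B : Mat).trace = -(A : Mat).trace) →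
      tl B = tl A := by
    rintro A B (h | h)
    · unfold tl
      rw [h]
    · obtain ⟨μ, hμ, -⟩ := h1 A
      have h3 : (-μ) ^ 2 - (B : Mat).trace * (-μ) + 1 = 0 := by
        rw [h]
        linear_combination hμ
      rw [tl_eq B h3, tl_eq A hμ, norm_neg]
  refine ⟨h1, h2, ?_, ?_, h5, ?_⟩
  · intro A
    obtain ⟨μ, hμ, hμ1, htl⟩ := h1 A
    have hpos : 0 < ‖μ‖ := by linarith
    refine ⟨by rw [htl]; have := Real.log_nonneg hμ1; linarith, ?_⟩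
    have he : Real.exp (tl A) = ‖μ‖ ^ 2 := by
      rw [htl, two_mul, Real.exp_add, Real.exp_log hpos]
      ring
    rw [he]
    obtain ⟨v, hv, hvA⟩ := eigen A hμ
    have hv0 : 0 < ‖v 0‖ ^ 2 + ‖v 1‖ ^ 2 := by
      by_contra hcon
      have h6 : ‖v 0‖ ^ 2 = 0 := by nlinarith [sq_nonneg ‖v 0‖, sq_nonneg ‖v 1‖]
      have h7 : ‖v 1‖ ^ 2 = 0 := by nlinarith [sq_nonneg ‖v 0‖, sq_nonneg ‖v 1‖]
      apply hv
      ext i
      fin_cases i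
      · simpa using h6
      · simpa using h7
    have hrow : ∀ i, μ * v i = (A : Mat) i 0 * v 0 + (A : Mat) i 1 * v 1 := by
      intro i
      have h6 := congrFun hvA i
      rw [Matrix.mulVec, Pi.smul_apply, smul_eq_mul] at h6
      rw [← h6]
      simp [dotProduct, Fin.sum_univ_two]
    have hb : ∀ i, ‖μ‖ ^ 2 * ‖v i‖ ^ 2 ≤
        (‖(A : Mat) i 0‖ ^ 2 + ‖(A : Mat) i 1‖ ^ 2) * (‖v 0‖ ^ 2 + ‖v 1‖ ^ 2) := by
      intro i
      rw [← mul_pow, ← norm_mul, hrow i]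
      exact cs2 _ _ _ _
    have hh : hs (A : Mat) = (‖(A : Mat) 0 0‖ ^ 2 + ‖(A : Mat) 0 1‖ ^ 2) +
        (‖(A : Mat) 1 0‖ ^ 2 + ‖(A : Mat) 1 1‖ ^ 2) := by
      simp [hs, Fin.sum_univ_two]
    have h8 := hb 0
    have h9 := hb 1
    have h10 : ‖μ‖ ^ 2 * (‖v 0‖ ^ 2 + ‖v 1‖ ^ 2) ≤ hs (A : Mat) * (‖v 0‖ ^ 2 + ‖v 1‖ ^ 2) := by
      rw [hh]
      nlinarith
    exact le_of_mul_le_mul_right h10 hv0
  · intro A B
    apply h5
    left
    rw [Matrix.SpecialLinearGroup.coe_mul, Matrix.trace_mul_comm,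
      ← Matrix.SpecialLinearGroup.coe_mul, ← mul_assoc, inv_mul_cancel, one_mul]
  · intro A n hn hA
    obtain ⟨μ, hμ, hμ1, htl⟩ := h1 A
    obtain ⟨v, hv, hvA⟩ := eigen A hμ
    have hpow : ∀ k : ℕ, ((A : Mat) ^ k).mulVec v = μ ^ k • v := by
      intro k
      induction k with
      | zero => simp
      | succ k ih =>
        rw [pow_succ, ← Matrix.mulVec_mulVec, hvA, Matrix.mulVec_smul, ih, smul_smul, pow_succ,
          mul_comm]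
    have h6 := hpow n
    have h7 : (A : Mat) ^ n = 1 := by
      rw [← Matrix.SpecialLinearGroup.coe_pow, hA, Matrix.SpecialLinearGroup.coe_one]
    rw [h7, Matrix.one_mulVec] at h6
    obtain ⟨i, hi⟩ := Function.ne_iff.1 hv
    have h8 : μ ^ n = 1 := by
      have h9 := congrFun h6 i
      rw [Pi.smul_apply, smul_eq_mul] at h9
      have h10 : (μ ^ n - 1) * v i = 0 := by linear_combination -h9
      exact sub_eq_zero.1 ((mul_eq_zero.1 h10).resolve_right hi)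
    have h11 : ‖μ‖ ^ n = 1 := by rw [← norm_pow, h8, norm_one]
    have h12 : ‖μ‖ = 1 := (pow_eq_one_iff_of_nonneg (norm_nonneg _) (by omega)).1 h11
    rw [htl, h12, Real.log_one, mul_zero]

end Pool.Agent.Helper80.PM
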