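import Pool.Agent.Helper62.PM.St4
import Pool.Agent.Helper62.PM.Asm

/-!
# Project PM, module NB: the test on bodies of revolution
-/

set_option autoImplicit false

open MeasureTheory Metric Set Filter Topology
open scoped RealInnerProductSpace ContDiff

namespace Pool.Agent.Helper80.PM

open Pool.Agent.Helper62.PM
open Pool.Agent.Helper62.Mink

private lemma prim {r : ℝ} (hr : 1 < r) {f : ℝ → ℝ} (hf : ContinuousOn f (Ioo (-r) r)) (c : ℝ) :
    ∀ t ∈ Ioo (-r) r, HasDerivAt (fun t => c + ∫ s in (0 : ℝ)..t, f s) (f t) t := by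
  intro t ht
  have h0 : (0 : ℝ) ∈ Ioo (-r) r := ⟨by linarith, by linarith⟩
  have hsub : uIcc 0 t ⊆ Ioo (-r) r := (ordConnected_Ioo).uIcc_subset h0 ht
  have h1 : IntervalIntegrable f volume 0 t := (hf.mono hsub).intervalIntegrable
  have h2 := intervalIntegral.integral_hasDerivAt_right h1
    (hf.stronglyMeasurableAtFilter isOpen_Ioo t ht) (hf.continuousAt (isOpen_Ioo.mem_nhds ht))
  exact h2.const_add c

private lemma smth {r : ℝ} {f h : ℝ → ℝ} (hh : ContDiffOn ℝ ∞ h (Ioo (-r) r))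
    (hf : ∀ t ∈ Ioo (-r) r, HasDerivAt f (h t) t) : ContDiffOn ℝ ∞ f (Ioo (-r) r) := by
  rw [contDiffOn_infty_iff_deriv_of_isOpen isOpen_Ioo]
  refine ⟨fun t ht => (hf t ht).differentiableAt.differentiableWithinAt, ?_⟩
  exact hh.congr fun t ht => (hf t ht).deriv

private lemma bessel {n : ℕ} {e : E n} (he : ‖e‖ = 1) {p : E n × E n} (hp : ON p) :
    (inner ℝ e p.1 : ℝ) ^ 2 + (inner ℝ e p.2 : ℝ) ^ 2 ≤ 1 := by
  obtain ⟨h1, h2, h3⟩ := hp
  set a : ℝ := inner ℝ e p.1 with ha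
  set b : ℝ := inner ℝ e p.2 with hb
  have h : 0 ≤ ‖e - a • p.1 - b • p.2‖ ^ 2 := sq_nonneg _
  have e1 : ‖e - a • p.1 - b • p.2‖ ^ 2 = 1 - a ^ 2 - b ^ 2 := by
    rw [← real_inner_self_eq_norm_sq]
    simp only [inner_sub_left, inner_sub_right, inner_smul_left, inner_smul_right,
      RCLike.conj_to_real, real_inner_self_eq_norm_sq, he, h1, h2]
    rw [real_inner_comm e p.1, real_inner_comm e p.2, real_inner_comm p.1 p.2, h3, ← ha, ← hb]
    ring
  linarith

private lemma cs {n : ℕ} {e x : E n} (he : ‖e‖ = 1) (hx : ‖x‖ = 1) :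
    (inner ℝ e x : ℝ) ∈ Icc (-1 : ℝ) 1 := by
  have h := abs_real_inner_le_norm e x
  rw [he, hx, one_mul] at h
  exact abs_le.1 h

private lemma basis {n : ℕ} (i₀ : Fin n) {e : E n} (he : ‖e‖ = 1) :
    ∃ b : OrthonormalBasis (Fin n) ℝ (E n), b i₀ = e := by
  have ho : Orthonormal ℝ (({i₀} : Set (Fin n)).restrict (fun _ => e)) := by
    refine ⟨fun _ => he, fun i j hij => absurd (Subsingleton.elim i j) hij⟩
  obtain ⟨b, hb⟩ := ho.exists_orthonormalBasis_extension_of_card_eq (by simp)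
  exact ⟨b, hb i₀ (mem_singleton _)⟩

/-- Module NB. -/
theorem hNB : StD → StE → StF → StNZ → StNA → StNB := by
  intro hD hE hF hNZ hNA n e P N T k ψ r hn he hP hN zP zN hG hr hψ hk k0 k1
  have hI : Icc (-1 : ℝ) 1 ⊆ Ioo (-r) r := fun t ht => ⟨by linarith [ht.1], by linarith [ht.2]⟩
  have h0 : (0 : ℝ) ∈ Ioo (-r) r := ⟨by linarith, by linarith⟩
  have cψ : ContinuousOn ψ (Ioo (-r) r) := hψ.continuousOn
  -- primitives
  obtain ⟨g1, hg1⟩ : ∃ g1 : ℝ → ℝ, ∀ t ∈ Ioo (-r) r, HasDerivAt g1 (ψ t) t :=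
    ⟨_, prim hr cψ 0⟩
  have cg1 : ContinuousOn g1 (Ioo (-r) r) := fun t ht => (hg1 t ht).continuousAt.continuousWithinAt
  obtain ⟨g, hg, hg0⟩ : ∃ g : ℝ → ℝ, (∀ t ∈ Ioo (-r) r, HasDerivAt g (g1 t) t) ∧ g 0 = k 0 :=
    ⟨_, prim hr cg1 (k 0), by simp⟩
  have sg1 : ContDiffOn ℝ ∞ g1 (Ioo (-r) r) := smth hψ hg1
  have sg : ContDiffOn ℝ ∞ g (Ioo (-r) r) := smth sg1 hg
  have key : ∀ t ∈ Ioo (-r) r, g t - t * g1 t = k t := by
    intro t ht
    have hd : ∀ s ∈ Ioo (-r) r, HasDerivAt (fun s => g s - s * g1 s - k s) 0 s := by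
      intro s hs
      have d1 := ((hg s hs).sub ((hasDerivAt_id s).mul (hg1 s hs))).sub (hk s hs)
      refine (d1.congr_deriv ?_)
      simp only [id]
      ring
    have hc := isOpen_Ioo.is_const_of_deriv_eq_zero (isPreconnected_Ioo)
      (fun s hs => (hd s hs).differentiableAt.differentiableWithinAt)
      (fun s hs => (hd s hs).deriv) ht h0
    simp only [zero_mul, sub_zero, hg0, sub_self] at hc
    linarith
  obtain ⟨a1, a2, a3⟩ := hNA n e g g1 ψ r he hr sg hg hg1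
  have hS : Sublinear (zf e g) := by
    refine sublin hD hE hF (by omega) a1 fun p hp => ?_
    have ht := cs he hp.1
    rw [a2 p hp, key _ (hI ht)]
    have hb := bessel he hp
    have c0 := k0 _ ht
    have c1 := k1 _ ht
    by_cases hs : 0 ≤ ψ (inner ℝ e p.1)
    · have := mul_nonneg hs (sq_nonneg (inner ℝ e p.2 : ℝ))
      linarith
    · have hs' : ψ (inner ℝ e p.1) < 0 := not_le.1 hs
      nlinarith [mul_nonneg (neg_nonneg.2 hs'.le) (sub_nonneg.2 hb)]
  have hv : ∀ v : E n, ON (e, v) →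
      ∫ w : sphere (0 : E n) 1, (k (inner ℝ e (w : E n)) +
        ψ (inner ℝ e (w : E n)) * (inner ℝ v (w : E n)) ^ 2) ∂N ≤
      ∫ w : sphere (0 : E n) 1, (k (inner ℝ e (w : E n)) +
        ψ (inner ℝ e (w : E n)) * (inner ℝ v (w : E n)) ^ 2) ∂P := by
    intro v hev
    have h := hNZ n e v P N T hn hev hP hN zP zN hG (zf e g) a1 hS
    have e1 : ∀ w : sphere (0 : E n) 1, Lop e v (zf e g) (w : E n) =
        k (inner ℝ e (w : E n)) + ψ (inner ℝ e (w : E n)) * (inner ℝ v (w : E n)) ^ 2 := by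
      intro w
      have hw : ‖(w : E n)‖ = 1 := norm_eq_of_mem_sphere w
      rw [a3 v hev w hw, key _ (hI (cs he hw))]
    simp only [e1] at h
    exact h
  obtain ⟨b, hb⟩ := basis (⟨0, by omega⟩ : Fin n) he
  set i₀ : Fin n := ⟨0, by omega⟩ with hi₀
  have hci : Continuous fun w : sphere (0 : E n) 1 => (inner ℝ e (w : E n) : ℝ) := by fun_prop
  have hmem : ∀ w : sphere (0 : E n) 1, (inner ℝ e (w : E n) : ℝ) ∈ Ioo (-r) r :=
    fun w => hI (cs he (norm_eq_of_mem_sphere w))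
  have hck : ContinuousOn k (Ioo (-r) r) := fun t ht => (hk t ht).continuousAt.continuousWithinAt
  have hcont : ∀ v : E n, Continuous fun w : sphere (0 : E n) 1 =>
      (k (inner ℝ e (w : E n)) + ψ (inner ℝ e (w : E n)) * (inner ℝ v (w : E n)) ^ 2) := by
    intro v
    have c1 := hck.comp_continuous hci hmem
    have c2 := cψ.comp_continuous hci hmem
    have c3 : Continuous fun w : sphere (0 : E n) 1 => (inner ℝ v (w : E n) : ℝ) := by fun_prop
    exact c1.add (c2.mul (c3.pow 2))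
  have hint : ∀ (Q : Measure (sphere (0 : E n) 1)), IsFiniteMeasure Q → ∀ v : E n,
      Integrable (fun w : sphere (0 : E n) 1 =>
      (k (inner ℝ e (w : E n)) + ψ (inner ℝ e (w : E n)) * (inner ℝ v (w : E n)) ^ 2)) Q := by
    intro Q hQ v
    exact (hcont v).integrable_of_hasCompactSupport (HasCompactSupport.of_compactSpace _)
  have hsum : ∀ w : sphere (0 : E n) 1, ((1 - (inner ℝ e (w : E n) : ℝ) ^ 2) *
      ψ (inner ℝ e (w : E n)) + ((n : ℝ) - 1) * k (inner ℝ e (w : E n))) =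
      ∑ i ∈ Finset.univ.erase i₀, (k (inner ℝ e (w : E n)) +
        ψ (inner ℝ e (w : E n)) * (inner ℝ (b i) (w : E n)) ^ 2) := by
    intro w
    have hw : ‖(w : E n)‖ = 1 := norm_eq_of_mem_sphere w
    have hp : ∑ i, (inner ℝ (b i) (w : E n) : ℝ) ^ 2 = 1 := by
      have := b.sum_sq_norm_inner_right (w : E n)
      rw [hw] at this
      simpa using this
    rw [← Finset.add_sum_erase _ _ (Finset.mem_univ i₀), hb] at hp
    rw [Finset.sum_add_distrib, Finset.sum_const, ← Finset.mul_sum,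
      Finset.card_erase_of_mem (Finset.mem_univ _), Finset.card_univ, Fintype.card_fin]
    have e2 : ∑ i ∈ Finset.univ.erase i₀, (inner ℝ (b i) (w : E n) : ℝ) ^ 2 =
        1 - (inner ℝ e (w : E n) : ℝ) ^ 2 := by linarith
    rw [e2, nsmul_eq_mul, Nat.cast_sub (by omega)]
    push_cast
    ring
  simp only [hsum]
  rw [integral_finset_sum _ fun i _ => hint N hN (b i), integral_finset_sum _ fun i _ =>
    hint P hP (b i)]
  refine Finset.sum_le_sum fun i hi => hv (b i) ⟨he, b.norm_eq_one i, ?_⟩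
  rw [← hb]
  exact b.orthonormal.2 (Finset.ne_of_mem_erase hi).symm

end Pool.Agent.Helper80.PM
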